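import Pool.Agent.V11298.WP.Win
import Pool.Agent.Results.MP_79499b_co.AlmostAllThreeDvd
import Pool.Agent.Results.MP_79499b_co.OrderCountOdd

/-!
# Difference sets with Singer parameters: windows of integers without orders, and short intervals

The starting results bound the number of the integers `n ≤ X` for which difference sets with Singer parameters
exist. Here these counts are localised. (1) Around `α v_n`, for almost all real numbers `α` and any sequence `v_n`
with `∑ (log v_n)^(-δ) < ∞` (for example `v_n = b^(n^k)` or `b^(b^n)`), windows of length `(log v_n)^θ`, `θ + δ < 1`,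
contain no orders at all. Since all prime powers are orders, windows longer than `log v_n` would contain orders for
typical `α`, so for doubly exponential sequences (`δ` arbitrarily small) the length is best possible up to the
exponent. (2) In almost all intervals `[x, x + c log x]` all orders are prime powers.
-/

set_option autoImplicit false

namespace Pool.Agent.Results.MP_79499b_co.MetricWindows

open Filter Topology MeasureTheory Set

/-- Some finite group `G` (not assumed abelian) of order `(n ^ m - 1) / (n - 1)` contains a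
difference set `D` with the Singer parameters:
`k = (n ^ (m - 1) - 1) / (n - 1)`, `lambda = (n ^ (m - 2) - 1) / (n - 1)`. -/
def HasSingerDifferenceSet (n m : ℕ) : Prop :=
  ∃ (G : Type) (_ : Group G) (_ : Fintype G) (_ : DecidableEq G) (D : Finset G),
    Fintype.card G * (n - 1) = n ^ m - 1 ∧ D.card * (n - 1) = n ^ (m - 1) - 1 ∧
    ∀ g : G, g ≠ 1 →
      ((D ×ˢ D).filter (fun p : G × G => p.1 * p.2⁻¹ = g)).card * (n - 1) = n ^ (m - 2) - 1

/-- `n` is an order of odd type `≤ K`: some finite group contains a difference set with the Singer parameters of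
`(n, m)` for some odd `m ≥ 3` whose least prime factor is at most `K` (`K = 3`: the odd multiples of `3`, in
particular `m = 3`, the planar difference sets) -/
def IsOrder (K n : ℕ) : Prop :=
  2 ≤ n ∧ ∃ m : ℕ, Odd m ∧ 3 ≤ m ∧ m.minFac ≤ K ∧ HasSingerDifferenceSet n m

/-- (1) Let `K` be an integer, `v n > 1`, `0 ≤ θ`, `0 < δ`, `θ + δ < 1` and let `∑ (log v_n)^(-δ)` converge. For
almost all real `α > 0` there is `n₀` such that for all `n ≥ n₀` no integer `N` with `|N - α v_n| ≤ (log v_n)^θ` is
an order (`IsOrder K N`). (2) For every `c > 0`, for all but `o(X)` of the integers `x ≤ X` every order `N` of type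
`3` in the interval `[x, x + c log X]` is a prime power. -/
theorem result :
    (∀ (K : ℕ) (v : ℕ → ℝ) (θ δ : ℝ), (∀ n, 1 < v n) → 0 ≤ θ → 0 < δ → θ + δ < 1 →
      Summable (fun n => Real.log (v n) ^ (-δ)) →
      ∀ᵐ α : ℝ, 0 < α → ∃ n₀ : ℕ, ∀ n : ℕ, n₀ ≤ n → ∀ N : ℕ, |(N : ℝ) - α * v n| ≤ Real.log (v n) ^ θ →
        ¬ IsOrder K N) ∧
    (∀ c : ℝ, 0 < c → Tendsto (fun X : ℕ => ({x : ℕ | x ≤ X ∧ ∃ N : ℕ, x ≤ N ∧ (N : ℝ) ≤ x + c * Real.log X ∧
      IsOrder 3 N ∧ ¬ IsPrimePow N}.ncard : ℝ) / X) atTop (𝓝 0)) := by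
  refine ⟨?_, ?_⟩
  · intro K v θ δ hv hθ hδ hθδ hs
    refine Pool.Agent.V11298.WP.ae_pow (IsOrder K) ?_ hv hθ hδ hθδ hs
    intro ε hε
    obtain ⟨C, hC, h⟩ := OrderCountOdd.result K ε hε
    refine ⟨C, hC, fun X hX => le_trans (le_of_eq ?_) (h X hX)⟩
    congr 2
    ext n
    constructor
    · rintro ⟨h1, h2, h3⟩
      exact ⟨h2, h1, h3⟩
    · rintro ⟨h1, h2, h3⟩
      exact ⟨h2, h1, h3⟩
  · intro c hc
    refine Pool.Agent.V11298.WP.short (fun N => IsOrder 3 N ∧ ¬ IsPrimePow N) ?_ c hc
    have h := AlmostAllThreeDvd.result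
    refine h.congr fun X => ?_
    congr 3
    have : {n : ℕ | 2 ≤ n ∧ n ≤ X ∧ ¬ IsPrimePow n ∧
        ∃ m : ℕ, Odd m ∧ 3 ≤ m ∧ 3 ∣ m ∧ AlmostAllThreeDvd.HasSingerDifferenceSet n m} =
        {N : ℕ | N ≤ X ∧ IsOrder 3 N ∧ ¬ IsPrimePow N} := by
      ext n
      constructor
      · rintro ⟨h1, h2, h3, m, hm1, hm2, hm3, hm4⟩
        exact ⟨h2, ⟨h1, m, hm1, hm2, Nat.minFac_le_of_dvd (by norm_num) hm3, hm4⟩, h3⟩
      · rintro ⟨h1, ⟨h2, m, hm1, hm2, hm3, hm4⟩, h3⟩
        refine ⟨h2, h1, h3, m, hm1, hm2, ?_, hm4⟩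
        have hne : m ≠ 1 := by omega
        have hp := Nat.minFac_prime hne
        have h2' : m.minFac ≠ 2 := by
          intro h
          have := Nat.minFac_dvd m
          rw [h] at this
          exact (Nat.not_even_iff_odd.2 hm1) (even_iff_two_dvd.2 this)
        have h3' : m.minFac = 3 := by
          have := hp.two_le
          omega
        rw [← h3']
        exact Nat.minFac_dvd m
    rw [this]

end Pool.Agent.Results.MP_79499b_co.MetricWindows
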