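import Mathlib
import Pool.Agent.V1118.SpF
import Pool.Agent.Results.MP_79499b_co.OrderCount
import Pool.Agent.Results.MP_79499b_co.AlmostAllPrimePowers
import Pool.Agent.Results.MP_79499b_co.PlanarAlmostAll

/-!
# Orders of Singer difference sets in the sparse sequences `⌊α n ^ c⌋`, `c > 1`

Let `c > 1` be real.  For all `α > 0` outside a set of Hausdorff dimension smaller than one:

* at most `C N (log N) ^ (ε - 1)` of the numbers `m = ⌊α n ^ c⌋`, `n ≤ N`, are orders of difference
sets with Singer parameters of odd dimension divisible by `3` (for instance of planar difference sets)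
in arbitrary groups, for every `ε > 0`;
* only `o(N / log N)` of the numbers `m = ⌊α n ^ c⌋`, `n ≤ N`, with `m ≡ 1, 2 (mod 4)` which are not
prime powers are orders of planar difference sets in arbitrary groups;
* the same holds, for all `m`, for Singer parameters of odd dimension divisible by an odd multiple
`L > 3` of `3`.

The starting library has these theorems for all natural numbers (`OrderCount`,
`AlmostAllPrimePowers`, `PlanarAlmostAll`), which say nothing about sparse sequences.
-/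

set_option autoImplicit false

open Filter Topology
open Pool.Agent.V1118.SpD Pool.Agent.V1118.SpF

namespace Pool.Agent.Results.MP_79499b_co.SparseOrders

/-- some group contains a difference set with Singer parameters of order `n` and of an odd dimension
divisible by `3` -/
def SingerThree (n : ℕ) : Prop :=
  2 ≤ n ∧ ∃ m : ℕ, Odd m ∧ 3 ≤ m ∧ 3 ∣ m ∧ OrderCount.HasSingerDifferenceSet n m

/-- `n ≡ 1, 2 (mod 4)` is not a prime power, and some group contains a planar difference set of
order `n` -/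
def PlanarExc (n : ℕ) : Prop :=
  2 ≤ n ∧ (n % 4 = 1 ∨ n % 4 = 2) ∧ ¬ IsPrimePow n ∧ PlanarAlmostAll.HasPlanarDifferenceSet n

/-- `n` is not a prime power, and some group contains a difference set with Singer parameters of
order `n` and of an odd dimension divisible by `L` -/
def SingerExc (L n : ℕ) : Prop :=
  2 ≤ n ∧ ¬ IsPrimePow n ∧ ∃ m : ℕ, Odd m ∧ 3 ≤ m ∧ L ∣ m ∧
    AlmostAllPrimePowers.HasSingerDifferenceSet n m

theorem result (c : ℝ) (hc : 1 < c) : ∃ E : Set ℝ, dimH E < 1 ∧ ∀ α : ℝ, 0 < α → α ∉ E →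
    (∀ ε : ℝ, 0 < ε → ∃ C : ℝ, ∀ N : ℕ, 3 ≤ N →
      (along α c SingerThree N : ℝ) ≤ C * N * (Real.log N) ^ (ε - 1)) ∧
    Tendsto (fun N : ℕ => (along α c PlanarExc N : ℝ) * Real.log N / N) atTop (𝓝 0) ∧
    ∀ L : ℕ, Odd L → 3 ∣ L → 3 < L →
      Tendsto (fun N : ℕ => (along α c (SingerExc L) N : ℝ) * Real.log N / N) atTop (𝓝 0) := by
  obtain ⟨E1, hE1, h1⟩ := few_nat c hc (ι := Unit) (fun _ => SingerThree)
  obtain ⟨E2, hE2, h2⟩ := little_log c hc (ι := Option ℕ)
    (fun o n => match o with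
      | none => PlanarExc n
      | some L => SingerExc L n)
  refine ⟨E1 ∪ E2, by rw [dimH_union]; exact max_lt hE1 hE2, fun α hα hαE => ?_⟩
  rw [Set.mem_union, not_or] at hαE
  refine ⟨fun ε hε => ?_, ?_, fun L hL h3 hL3 => ?_⟩
  · obtain ⟨C, hC, hst⟩ := OrderCount.result (min ε 1) (lt_min hε one_pos)
    obtain ⟨C', hC'⟩ := h1 α hα hαE.1 () (1 - min ε 1) C (by linarith [min_le_right ε 1])
      ⟨3, fun X hX => by
        have h3 := hst X hX
        have e : {m : ℕ | m ≤ X ∧ SingerThree m} = {n : ℕ | 2 ≤ n ∧ n ≤ X ∧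
            ∃ m : ℕ, Odd m ∧ 3 ≤ m ∧ 3 ∣ m ∧ OrderCount.HasSingerDifferenceSet n m} := by
          ext n
          constructor
          · rintro ⟨a, b, d⟩
            exact ⟨b, a, d⟩
          · rintro ⟨a, b, d⟩
            exact ⟨b, a, d⟩
        rw [e]
        have e2 : -(1 - min ε 1) = min ε 1 - 1 := by ring
        rw [e2]
        exact h3⟩
    refine ⟨|C'|, fun N hN => (hC' N hN).trans ?_⟩
    have hN3 : (3 : ℝ) ≤ N := by exact_mod_cast hN
    have hl : 1 ≤ Real.log N := Pool.Agent.Y854.GM.one_le_log3 hN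
    have h4 : (Real.log N) ^ (-(1 - min ε 1)) ≤ (Real.log N) ^ (ε - 1) :=
      Real.rpow_le_rpow_of_exponent_le hl (by linarith [min_le_left ε 1])
    have h5 : 0 ≤ (Real.log N) ^ (-(1 - min ε 1)) := Real.rpow_nonneg (by linarith) _
    calc C' * N * (Real.log N) ^ (-(1 - min ε 1)) ≤ |C'| * N * (Real.log N) ^ (-(1 - min ε 1)) :=
          mul_le_mul_of_nonneg_right
            (mul_le_mul_of_nonneg_right (le_abs_self C') (by linarith)) h5
      _ ≤ |C'| * N * (Real.log N) ^ (ε - 1) := mul_le_mul_of_nonneg_left h4 (by positivity)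
  · refine h2 α hα hαE.2 none ?_
    refine (PlanarAlmostAll.result).congr fun X => ?_
    have e : {n : ℕ | 2 ≤ n ∧ n ≤ X ∧ (n % 4 = 1 ∨ n % 4 = 2) ∧ ¬ IsPrimePow n ∧
        PlanarAlmostAll.HasPlanarDifferenceSet n} = {m : ℕ | m ≤ X ∧ PlanarExc m} := by
      ext n
      constructor
      · rintro ⟨a, b, d⟩
        exact ⟨b, a, d⟩
      · rintro ⟨a, b, d⟩
        exact ⟨b, a, d⟩
    rw [e]
  · refine h2 α hα hαE.2 (some L) ?_
    refine (AlmostAllPrimePowers.result L hL h3 hL3).congr fun X => ?_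
    have e : {n : ℕ | 2 ≤ n ∧ n ≤ X ∧ ¬ IsPrimePow n ∧
        ∃ m : ℕ, Odd m ∧ 3 ≤ m ∧ L ∣ m ∧ AlmostAllPrimePowers.HasSingerDifferenceSet n m} =
        {m : ℕ | m ≤ X ∧ SingerExc L m} := by
      ext n
      constructor
      · rintro ⟨a, b, d⟩
        exact ⟨b, a, d⟩
      · rintro ⟨a, b, d⟩
        exact ⟨b, a, d⟩
    rw [e]

end Pool.Agent.Results.MP_79499b_co.SparseOrders
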